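import Mathlib

/-!
# Rectifiable `p`-spaces with countable cellularity are Lindelöf
-/

namespace Pool.Agent.Results.MP_46c3d4_gt.RectifiableLindelof

open Set Filter Topology

universe u

/-! ## Definitions -/

/-- `X` is rectifiable: there are a point `e` and a homeomorphism `φ` of `X × X` onto itself with
`φ({x} × X) = {x} × X` and `φ(x, x) = (x, e)` for all `x`. -/
def IsRectifiable (X : Type u) [TopologicalSpace X] : Prop :=
  ∃ (e : X) (φ : X × X ≃ₜ X × X), ∀ x : X,
    φ '' ({x} ×ˢ Set.univ) = {x} ×ˢ Set.univ ∧ φ (x, x) = (x, e)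

/-- `X` is a `p`-space: it is Tychonoff and there is a sequence `γ n` of families of open subsets
of `βX`, each covering `X`, such that `⋂ n, St(x, γ n) ⊆ X` for all `x ∈ X`. -/
def IsPSpace (X : Type u) [TopologicalSpace X] : Prop :=
  T35Space X ∧ ∃ γ : ℕ → Set (Set (StoneCech X)), (∀ n, ∀ U ∈ γ n, IsOpen U) ∧
    (∀ n, Set.range (stoneCechUnit : X → StoneCech X) ⊆ ⋃₀ γ n) ∧
    ∀ x : X, (⋂ n, ⋃₀ {U ∈ γ n | stoneCechUnit x ∈ U}) ⊆
      Set.range (stoneCechUnit : X → StoneCech X)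

/-- The Souslin number of `X` is countable: each family of pairwise disjoint nonempty open sets
is countable. -/
def HasCCC (X : Type u) [TopologicalSpace X] : Prop :=
  ∀ 𝒱 : Set (Set X), (∀ V ∈ 𝒱, IsOpen V ∧ V.Nonempty) → 𝒱.PairwiseDisjoint id → 𝒱.Countable

/-- `X` is of countable type at `e`: there is a compact set containing `e` which has a countable
base of neighbourhoods. -/
def CountableTypeAt (X : Type u) [TopologicalSpace X] (e : X) : Prop :=
  ∃ (K : Set X) (U : ℕ → Set X), IsCompact K ∧ e ∈ K ∧ (∀ n, IsOpen (U n) ∧ K ⊆ U n) ∧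
    ∀ W : Set X, IsOpen W → K ⊆ W → ∃ n, U n ⊆ W

/-! ## A consequence of the countable chain condition -/

theorem exists_countable_subfamily {X : Type u} [TopologicalSpace X] (hX : HasCCC X)
    {ι : Type*} (S : Set ι) (f : ι → Set X) (hf : ∀ i ∈ S, IsOpen (f i)) :
    ∃ A ⊆ S, A.Countable ∧ ∀ i ∈ S, f i ⊆ closure (⋃ a ∈ A, f a) := by
  let PP : Set (Set (Set X)) := {𝒱 | (∀ V ∈ 𝒱, IsOpen V ∧ V.Nonempty ∧ ∃ i ∈ S, V ⊆ f i) ∧
    𝒱.PairwiseDisjoint id}
  obtain ⟨𝒱, h𝒱⟩ : ∃ 𝒱, Maximal (· ∈ PP) 𝒱 := by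
    apply zorn_subset
    intro c hc hchain
    refine ⟨⋃₀ c, ⟨?_, ?_⟩, fun s hs => Set.subset_sUnion_of_mem hs⟩
    · rintro V ⟨𝒲, h𝒲, hV⟩
      exact (hc h𝒲).1 V hV
    · rintro V ⟨𝒲, h𝒲, hV⟩ V' ⟨𝒲', h𝒲', hV'⟩ hne
      rcases hchain.total h𝒲 h𝒲' with h | h
      · exact (hc h𝒲').2 (h hV) hV' hne
      · exact (hc h𝒲).2 hV (h hV') hne
  obtain ⟨⟨h1, h2⟩, hmax⟩ := h𝒱
  have hcount : 𝒱.Countable := hX 𝒱 (fun V hV => ⟨(h1 V hV).1, (h1 V hV).2.1⟩) h2
  have h3 : ∀ V ∈ 𝒱, ∃ i ∈ S, V ⊆ f i := fun V hV => (h1 V hV).2.2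
  choose i hi1 hi2 using h3
  have : Countable 𝒱 := hcount.to_subtype
  let A : Set ι := Set.range fun V : 𝒱 => i V.1 V.2
  refine ⟨A, ?_, Set.countable_range _, ?_⟩
  · rintro _ ⟨V, rfl⟩
    exact hi1 V.1 V.2
  · intro j hj y hy
    by_contra hcon
    let W : Set X := f j ∩ (closure (⋃ a ∈ A, f a))ᶜ
    have hW : IsOpen W := (hf j hj).inter isClosed_closure.isOpen_compl
    have hWne : W.Nonempty := ⟨y, hy, hcon⟩
    have hsub : ∀ V ∈ 𝒱, V ⊆ closure (⋃ a ∈ A, f a) := by
      intro V hV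
      refine Set.Subset.trans ?_ subset_closure
      exact (hi2 V hV).trans (Set.subset_biUnion_of_mem (u := f) ⟨⟨V, hV⟩, rfl⟩)
    have hdisj : ∀ V ∈ 𝒱, Disjoint W V := by
      intro V hV
      rw [Set.disjoint_left]
      intro z hz hzV
      exact hz.2 (hsub V hV hzV)
    have hmem : insert W 𝒱 ∈ PP := by
      refine ⟨?_, ?_⟩
      · rintro V (rfl | hV)
        · exact ⟨hW, hWne, j, hj, Set.inter_subset_left⟩
        · exact h1 V hV
      · refine h2.insert ?_
        intro V hV _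
        exact hdisj V hV
    have hWV : W ∈ 𝒱 := hmax hmem (Set.subset_insert _ _) (Set.mem_insert _ _)
    obtain ⟨z, hz⟩ := hWne
    exact hz.2 (hsub W hWV hz)

/-! ## `p`-spaces are of countable type -/

theorem IsPSpace.countableTypeAt {X : Type u} [TopologicalSpace X] (hX : IsPSpace X) (e : X) :
    CountableTypeAt X e := by
  obtain ⟨hT, γ, hγo, hγc, hγ⟩ := hX
  have hemb := isEmbedding_stoneCechUnit (X := X)
  let i : X → StoneCech X := stoneCechUnit
  -- shrinking neighbourhoods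
  have hstep : ∀ (n : ℕ) (V : Set (StoneCech X)), ∃ V' : Set (StoneCech X),
      (IsOpen V ∧ i e ∈ V) → (IsOpen V' ∧ i e ∈ V' ∧ closure V' ⊆ V ∧
        ∃ G ∈ γ n, i e ∈ G ∧ V' ⊆ G) := by
    intro n V
    by_cases hV : IsOpen V ∧ i e ∈ V
    swap
    · exact ⟨∅, fun h => absurd h hV⟩
    obtain ⟨G, hG, heG⟩ := hγc n ⟨e, rfl⟩
    have h1 : V ∩ G ∈ 𝓝 (i e) := (hV.1.inter (hγo n G hG)).mem_nhds ⟨hV.2, heG⟩
    obtain ⟨T, hT1, hT2, hT3⟩ := exists_mem_nhds_isClosed_subset h1
    refine ⟨interior T, fun _ => ⟨isOpen_interior, mem_interior_iff_mem_nhds.2 hT1, ?_, G, hG, heG,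
      ?_⟩⟩
    · exact (closure_minimal interior_subset hT2).trans (hT3.trans Set.inter_subset_left)
    · exact interior_subset.trans (hT3.trans Set.inter_subset_right)
  choose s hs using hstep
  let V : ℕ → Set (StoneCech X) := fun n => Nat.rec Set.univ (fun n V => s n V) n
  have hV : ∀ n, IsOpen (V n) ∧ i e ∈ V n := by
    intro n
    induction n with
    | zero => exact ⟨isOpen_univ, Set.mem_univ _⟩
    | succ n ih => exact ⟨(hs n (V n) ih).1, (hs n (V n) ih).2.1⟩
  have hVcl : ∀ n, closure (V (n + 1)) ⊆ V n := fun n => (hs n (V n) (hV n)).2.2.1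
  have hVG : ∀ n, ∃ G ∈ γ n, i e ∈ G ∧ V (n + 1) ⊆ G := fun n => (hs n (V n) (hV n)).2.2.2
  have hanti : Antitone V := antitone_nat_of_succ_le fun n => subset_closure.trans (hVcl n)
  let L : Set (StoneCech X) := ⋂ n, V n
  have hL' : L = ⋂ n, closure (V n) := by
    apply Set.Subset.antisymm
    · exact Set.iInter_mono fun n => subset_closure
    · refine Set.subset_iInter fun n => ?_
      exact (Set.iInter_subset _ (n + 1)).trans (hVcl n)
  have hLc : IsCompact L := by
    rw [hL']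
    exact (isClosed_iInter fun n => isClosed_closure).isCompact
  have hLX : L ⊆ Set.range i := by
    refine Set.Subset.trans ?_ (hγ e)
    intro z hz
    refine Set.mem_iInter.2 fun n => ?_
    obtain ⟨G, hG, heG, hVG'⟩ := hVG n
    exact ⟨G, ⟨hG, heG⟩, hVG' (Set.mem_iInter.1 hz (n + 1))⟩
  refine ⟨i ⁻¹' L, fun n => i ⁻¹' (V n), ?_, ?_, ?_, ?_⟩
  · rw [hemb.isInducing.isCompact_iff, Set.image_preimage_eq_of_subset hLX]
    exact hLc
  · exact Set.mem_iInter.2 fun n => (hV n).2
  · intro n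
    exact ⟨(hV n).1.preimage hemb.continuous, Set.preimage_mono (Set.iInter_subset _ n)⟩
  · intro W hW hLW
    obtain ⟨W', hW', rfl⟩ := hemb.isInducing.isOpen_iff.1 hW
    have hLW' : L ⊆ W' := by
      intro z hz
      obtain ⟨x, rfl⟩ := hLX hz
      exact hLW hz
    -- compactness
    have h1 : ∃ n, closure (V n) ⊆ W' := by
      by_contra hcon
      push Not at hcon
      have h2 : (⋂ n, closure (V n) ∩ W'ᶜ).Nonempty := by
        apply IsCompact.nonempty_iInter_of_sequence_nonempty_isCompact_isClosed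
        · intro n
          exact Set.inter_subset_inter_left _ (closure_mono (hanti (Nat.le_succ n)))
        · intro n
          obtain ⟨z, hz, hz'⟩ := Set.not_subset.1 (hcon n)
          exact ⟨z, hz, hz'⟩
        · exact (isClosed_closure.inter hW'.isClosed_compl).isCompact
        · intro n
          exact isClosed_closure.inter hW'.isClosed_compl
      obtain ⟨z, hz⟩ := h2
      rw [Set.mem_iInter] at hz
      have h3 : z ∈ L := by
        rw [hL']
        exact Set.mem_iInter.2 fun n => (hz n).1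
      exact (hz 0).2 (hLW' h3)
    obtain ⟨n, hn⟩ := h1
    exact ⟨n, Set.preimage_mono (subset_closure.trans hn)⟩

/-! ## The main theorem -/

theorem lindelof_of_ccc {X : Type u} [TopologicalSpace X] (e : X) (φ : X × X ≃ₜ X × X)
    (hφ : ∀ x : X, φ '' ({x} ×ˢ Set.univ) = {x} ×ˢ Set.univ ∧ φ (x, x) = (x, e))
    (hct : CountableTypeAt X e) (hccc : HasCCC X) : LindelofSpace X := by
  let q : X → X → X := fun x y => (φ (x, y)).2
  let p : X → X → X := fun x z => (φ.symm (x, z)).2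
  have hφ1 : ∀ x y, φ (x, y) = (x, q x y) := by
    intro x y
    have h1 : φ (x, y) ∈ ({x} ×ˢ Set.univ : Set (X × X)) := by
      rw [← (hφ x).1]
      exact ⟨(x, y), ⟨rfl, Set.mem_univ _⟩, rfl⟩
    exact Prod.ext h1.1 rfl
  have hφ2 : ∀ x z, φ.symm (x, z) = (x, p x z) := by
    intro x z
    have h1 : (x, z) ∈ φ '' ({x} ×ˢ Set.univ : Set (X × X)) := by
      rw [(hφ x).1]
      exact ⟨rfl, Set.mem_univ _⟩
    obtain ⟨⟨a, b⟩, ⟨ha, -⟩, hab⟩ := h1
    have ha' : a = x := ha
    have h2 : φ.symm (x, z) = (a, b) := by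
      rw [← hab, φ.symm_apply_apply]
    apply Prod.ext
    · rw [h2]
      exact ha'
    · rfl
  have hpq : ∀ x y, p x (q x y) = y := by
    intro x y
    change (φ.symm (x, q x y)).2 = y
    rw [← hφ1, φ.symm_apply_apply]
  have hqp : ∀ x z, q x (p x z) = z := by
    intro x z
    change (φ (x, p x z)).2 = z
    rw [← hφ2, φ.apply_symm_apply]
  have hpe : ∀ x, p x e = x := by
    intro x
    have h1 : q x x = e := by
      change (φ (x, x)).2 = e
      rw [(hφ x).2]
    rw [← h1, hpq]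
  have hqc : Continuous fun z : X × X => q z.1 z.2 := continuous_snd.comp φ.continuous
  have hpc : Continuous fun z : X × X => p z.1 z.2 := continuous_snd.comp φ.symm.continuous
  have hopen : ∀ x (V : Set X), IsOpen V → IsOpen (p x '' V) := by
    intro x V hV
    have : p x '' V = (fun y => q x y) ⁻¹' V := by
      ext y
      constructor
      · rintro ⟨z, hz, rfl⟩
        change q x (p x z) ∈ V
        rwa [hqp]
      · intro hy
        exact ⟨q x y, hy, hpq x y⟩
    rw [this]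
    exact hV.preimage (hqc.comp (continuous_const.prodMk continuous_id))
  obtain ⟨K, U, hK, heK, hU, hbase⟩ := hct
  refine ⟨isLindelof_of_countable_subcover fun {ι} O hO hcov => ?_⟩
  -- the sets `X_n`
  let G : X → X × X → X := fun x z => p (p x z.1) z.2
  have hG : ∀ x, Continuous (G x) := fun x =>
    hpc.comp ((hpc.comp (continuous_const.prodMk continuous_fst)).prodMk continuous_snd)
  let S : ℕ → Set X := fun n => {x | ∃ F : Finset ι, G x '' (U n ×ˢ U n) ⊆ ⋃ i ∈ F, O i}
  have hS : ∀ x, ∃ n, x ∈ S n := by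
    intro x
    have h1 : IsCompact (G x '' (K ×ˢ K)) := (hK.prod hK).image (hG x)
    obtain ⟨F, hF⟩ := h1.elim_finite_subcover O hO (fun y _ => hcov (Set.mem_univ y))
    have h2 : IsOpen (G x ⁻¹' (⋃ i ∈ F, O i)) :=
      (isOpen_biUnion fun i _ => hO i).preimage (hG x)
    obtain ⟨u, v, hu, hv, hKu, hKv, huv⟩ := generalized_tube_lemma hK hK h2
      (Set.image_subset_iff.1 hF)
    obtain ⟨n, hn⟩ := hbase (u ∩ v) (hu.inter hv) (Set.subset_inter hKu hKv)
    refine ⟨n, F, ?_⟩
    rw [Set.image_subset_iff]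
    refine Set.Subset.trans ?_ huv
    exact Set.prod_mono (hn.trans Set.inter_subset_left) (hn.trans Set.inter_subset_right)
  have hA : ∀ n, ∃ A ⊆ S n, A.Countable ∧ ∀ x ∈ S n, p x '' (U n) ⊆
      closure (⋃ a ∈ A, p a '' (U n)) := fun n =>
    exists_countable_subfamily hccc (S n) (fun x => p x '' (U n))
      (fun x _ => hopen x _ (hU n).1)
  choose A hA1 hA2 hA3 using hA
  have hF : ∀ (n : ℕ) (x : X), ∃ F : Finset ι, x ∈ S n → G x '' (U n ×ˢ U n) ⊆ ⋃ i ∈ F, O i := by
    intro n x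
    by_cases hx : x ∈ S n
    · obtain ⟨F, hF⟩ := hx
      exact ⟨F, fun _ => hF⟩
    · exact ⟨∅, fun h => absurd h hx⟩
  choose F hF using hF
  refine ⟨⋃ n, ⋃ a ∈ A n, (F n a : Set ι), ?_, ?_⟩
  · exact Set.countable_iUnion fun n => (hA2 n).biUnion fun a _ => (F n a).countable_toSet
  · intro y _
    obtain ⟨n, hn⟩ := hS y
    have hy : y ∈ closure (⋃ a ∈ A n, p a '' (U n)) :=
      hA3 n y hn ⟨e, (hU n).2 heK, hpe y⟩
    have hopen' : IsOpen {x | q x y ∈ U n} :=
      (hU n).1.preimage (hqc.comp (continuous_id.prodMk continuous_const))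
    have hyy : y ∈ {x | q x y ∈ U n} := by
      have h1 : q y y = e := by
        change (φ (y, y)).2 = e
        rw [(hφ y).2]
      change q y y ∈ U n
      rw [h1]
      exact (hU n).2 heK
    obtain ⟨x, hx1, hx2⟩ := mem_closure_iff.1 hy _ hopen' hyy
    simp only [Set.mem_iUnion] at hx2
    obtain ⟨a, ha, u, hu, rfl⟩ := hx2
    have h2 : G a (u, q (p a u) y) = y := hpq _ _
    have h3 : y ∈ ⋃ i ∈ F n a, O i := hF n a (hA1 n ha) ⟨(u, q (p a u) y), ⟨hu, hx1⟩, h2⟩
    simp only [Set.mem_iUnion] at h3 ⊢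
    obtain ⟨i, hi, hyi⟩ := h3
    exact ⟨i, ⟨n, a, ha, hi⟩, hyi⟩

theorem hasCCC_of_separable {X : Type u} [TopologicalSpace X]
    [TopologicalSpace.SeparableSpace X] : HasCCC X := by
  intro 𝒱 h𝒱 hdisj
  exact hdisj.countable_of_isOpen (fun V hV => (h𝒱 V hV).1) (fun V hV => (h𝒱 V hV).2)

/-- Rectifiable `p`-spaces with countable Souslin number are Lindelöf; in particular separable
rectifiable `p`-spaces (locally compact or not) are Lindelöf. -/
theorem result :
    (∀ (X : Type u) [TopologicalSpace X], IsRectifiable X → IsPSpace X → HasCCC X →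
      LindelofSpace X) ∧
    (∀ (X : Type u) [TopologicalSpace X] [TopologicalSpace.SeparableSpace X], IsRectifiable X →
      IsPSpace X → LindelofSpace X) ∧
    (∀ (X : Type u) [TopologicalSpace X] [TopologicalSpace.SeparableSpace X]
      [LocallyCompactSpace X], IsRectifiable X → IsPSpace X → LindelofSpace X) := by
  have main : ∀ (X : Type u) [TopologicalSpace X], IsRectifiable X → IsPSpace X → HasCCC X →
      LindelofSpace X := by
    rintro X _ ⟨e, φ, hφ⟩ hp hc
    exact lindelof_of_ccc e φ hφ (hp.countableTypeAt e) hc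
  exact ⟨main, fun X _ _ hr hp => main X hr hp hasCCC_of_separable,
    fun X _ _ _ hr hp => main X hr hp hasCCC_of_separable⟩

end Pool.Agent.Results.MP_46c3d4_gt.RectifiableLindelof
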